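import Mathlib
import Pool.Agent.Lib.MP_663568_nt.Final

/-!
# Logarithmic Möbius disjointness from local uniformity: definitions
-/

set_option autoImplicit false
open Finset MeasureTheory

namespace Pool.Agent.LS

open Pool.Agent.Lib.MP_663568_nt

/-- Local uniformity for a set of sequences of modulus at most one. -/
def LU (W : Set (ℕ → ℂ)) : Prop := (∀ w ∈ W, ∀ h, ‖w h‖ ≤ 1) ∧
  ∀ ε : ℝ, 0 < ε → ∃ H₀ : ℕ, ∀ H N : ℕ, H₀ ≤ H → H ≤ N →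
    ∑ n ∈ Icc 1 N, (1 / (n : ℝ)) * ⨆ w : {w : ℕ → ℂ // w ∈ W},
      ‖∑ h ∈ Icc 1 H, muC (n + h) * (w : ℕ → ℂ) h‖ ≤ ε * H * Real.log N

/-- The supremum over one window. -/
noncomputable def sp (W : Set (ℕ → ℂ)) (H n : ℕ) : ℝ :=
  ⨆ w : {w : ℕ → ℂ // w ∈ W}, ‖∑ h ∈ Icc 1 H, muC (n + h) * (w : ℕ → ℂ) h‖

/-- The data of an approximation of `f` for the measure `ν` with error `ε`. -/
def Appr {X : Type*} [MeasurableSpace X] (T : X → X) (f : X → ℂ) (ν : Measure X) (ε : ℝ) : Prop :=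
  ∃ (J : ℕ) (M : ℝ) (W : Fin J → Set (ℕ → ℂ)) (φ : Fin J → X → ℂ), 0 ≤ M ∧ (∀ j, LU (W j)) ∧
    (∀ j, Measurable (φ j)) ∧ (∀ j z, ‖φ j z‖ ≤ M) ∧
    (∀ j, ∀ᵐ z ∂ν, ∃ w ∈ W j, ∃ c : ℂ, ‖c‖ ≤ M ∧ ∀ h : ℕ, φ j (T^[h] z) = c * w h) ∧
    ∫ z, ‖f z - ∑ j, φ j z‖ ∂ν ≤ ε

end Pool.Agent.LS
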