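import Mathlib
import Pool.Agent.Lib.LS.Defs
import Pool.Agent.Lib.MP_663568_nt.Log

/-!
# Logarithmic Möbius disjointness from local uniformity: numerical lemmas
-/

set_option autoImplicit false
open Finset MeasureTheory

namespace Pool.Agent.LS

open Pool.Agent.Lib.MP_663568_nt

lemma shift_le (S : ℕ → ℝ) (B : ℝ) (h0 : ∀ m, 0 ≤ S m) (hB : ∀ m, S m ≤ B) (H N k : ℕ)
    (hk : k ≤ H) (hHN : H ≤ N) :
    ∑ n ∈ Icc 1 N, (1 / (n : ℝ)) * S (n + k) ≤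
      B * (1 + Real.log H) + 2 * ∑ m ∈ Icc 1 (2 * N), (1 / (m : ℝ)) * S m := by
  have hB0 : 0 ≤ B := (h0 0).trans (hB 0)
  have h1 : ∀ n ∈ Icc 1 N, (1 / (n : ℝ)) * S (n + k) ≤
      (if n ≤ H then (1 / (n : ℝ)) * B else 0) + 2 * ((1 / ((n + k : ℕ) : ℝ)) * S (n + k)) := by
    intro n hn
    rw [mem_Icc] at hn
    have hn0 : (0 : ℝ) < n := by
      have : 0 < n := by omega
      exact_mod_cast this
    have h2 : 0 ≤ 2 * ((1 / ((n + k : ℕ) : ℝ)) * S (n + k)) := by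
      have := h0 (n + k)
      positivity
    by_cases hnH : n ≤ H
    · rw [if_pos hnH]
      have : (1 / (n : ℝ)) * S (n + k) ≤ (1 / (n : ℝ)) * B :=
        mul_le_mul_of_nonneg_left (hB _) (by positivity)
      linarith
    · rw [if_neg hnH, zero_add]
      have h3 : (1 / (n : ℝ)) ≤ 2 * (1 / ((n + k : ℕ) : ℝ)) := by
        rw [mul_one_div, div_le_div_iff₀ hn0 (by push_cast; positivity)]
        have : ((n + k : ℕ) : ℝ) ≤ 2 * n := by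
          have : n + k ≤ 2 * n := by omega
          exact_mod_cast this
        linarith
      calc (1 / (n : ℝ)) * S (n + k) ≤ 2 * (1 / ((n + k : ℕ) : ℝ)) * S (n + k) :=
            mul_le_mul_of_nonneg_right h3 (h0 _)
        _ = _ := by ring
  refine (sum_le_sum h1).trans ?_
  rw [sum_add_distrib]
  apply add_le_add
  · rw [← sum_filter]
    have h4 : (Icc 1 N).filter (fun n => n ≤ H) = Icc 1 H := by
      ext n
      simp only [mem_filter, mem_Icc]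
      omega
    rw [h4, ← sum_mul, mul_comm]
    exact mul_le_mul_of_nonneg_left (Katai.sum_inv_le_log H) hB0
  · rw [← mul_sum]
    gcongr
    have h5 : ∑ n ∈ Icc 1 N, (1 / ((n + k : ℕ) : ℝ)) * S (n + k) =
        ∑ m ∈ (Icc 1 N).image (fun n => n + k), (1 / (m : ℝ)) * S m := by
      rw [sum_image (by intro a _ b _ h; simpa using h)]
    rw [h5]
    apply sum_le_sum_of_subset_of_nonneg
    · intro m hm
      rw [mem_image] at hm
      obtain ⟨n, hn, rfl⟩ := hm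
      rw [mem_Icc] at hn ⊢
      omega
    · intro m _ _
      have := h0 m
      positivity

theorem R3 (S : ℕ → ℝ) (B : ℝ) (h0 : ∀ m, 0 ≤ S m) (hB : ∀ m, S m ≤ B) (H N : ℕ)
    (hHN : H ≤ N) :
    ∑ n ∈ Icc 1 N, (1 / (n : ℝ)) * ∑ k ∈ Icc 1 H, S (n + k) ≤
      H * (B * (1 + Real.log H) + 2 * ∑ m ∈ Icc 1 (2 * N), (1 / (m : ℝ)) * S m) := by
  have h1 : ∑ n ∈ Icc 1 N, (1 / (n : ℝ)) * ∑ k ∈ Icc 1 H, S (n + k) =
      ∑ k ∈ Icc 1 H, ∑ n ∈ Icc 1 N, (1 / (n : ℝ)) * S (n + k) := by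
    rw [sum_comm]
    exact sum_congr rfl fun n _ => mul_sum _ _ _
  rw [h1]
  calc ∑ k ∈ Icc 1 H, ∑ n ∈ Icc 1 N, (1 / (n : ℝ)) * S (n + k)
      ≤ ∑ k ∈ Icc 1 H, (B * (1 + Real.log H) + 2 * ∑ m ∈ Icc 1 (2 * N), (1 / (m : ℝ)) * S m) := by
        refine sum_le_sum fun k hk => ?_
        rw [mem_Icc] at hk
        exact shift_le S B h0 hB H N k hk.2 hHN
    _ = _ := by
        rw [sum_const, Nat.card_Icc, Nat.add_sub_cancel, nsmul_eq_mul]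

lemma sp_nonneg (W : Set (ℕ → ℂ)) (H n : ℕ) : 0 ≤ sp W H n :=
  Real.iSup_nonneg fun _ => norm_nonneg _

lemma win_le {W : Set (ℕ → ℂ)} (hW : ∀ w ∈ W, ∀ h, ‖w h‖ ≤ 1) (H n : ℕ) {w : ℕ → ℂ} (hw : w ∈ W) :
    ‖∑ h ∈ Icc 1 H, muC (n + h) * w h‖ ≤ H := by
  refine (norm_sum_le _ _).trans ?_
  calc ∑ h ∈ Icc 1 H, ‖muC (n + h) * w h‖ ≤ ∑ h ∈ Icc 1 H, (1 : ℝ) := by
        refine sum_le_sum fun h _ => ?_
        rw [norm_mul]
        exact mul_le_one₀ (norm_muC _) (norm_nonneg _) (hW w hw h)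
    _ = H := by simp

lemma sp_le {W : Set (ℕ → ℂ)} (hW : ∀ w ∈ W, ∀ h, ‖w h‖ ≤ 1) (H n : ℕ) : sp W H n ≤ H := by
  unfold sp
  rcases isEmpty_or_nonempty {w : ℕ → ℂ // w ∈ W} with hE | hE
  · rw [Real.iSup_of_isEmpty]
    positivity
  · exact ciSup_le fun w => win_le hW H n w.2

lemma le_sp {W : Set (ℕ → ℂ)} (hW : ∀ w ∈ W, ∀ h, ‖w h‖ ≤ 1) (H n : ℕ) {w : ℕ → ℂ} (hw : w ∈ W) :
    ‖∑ h ∈ Icc 1 H, muC (n + h) * w h‖ ≤ sp W H n := by
  unfold sp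
  exact le_ciSup (f := fun w : {w : ℕ → ℂ // w ∈ W} =>
    ‖∑ h ∈ Icc 1 H, muC (n + h) * (w : ℕ → ℂ) h‖)
    ⟨(H : ℝ), by rintro _ ⟨w, rfl⟩; exact win_le hW H n w.2⟩ ⟨w, hw⟩

end Pool.Agent.LS
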