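import Mathlib
import Pool.Agent.Lib.LS.R3

/-!
# Logarithmic Möbius disjointness from local uniformity: the limit measure
-/

set_option autoImplicit false
open Finset MeasureTheory Filter Topology
open scoped BoundedContinuousFunction

namespace Pool.Agent.LS

open Pool.Agent.Lib.MP_663568_nt

section

variable {X : Type*} [MetricSpace X] [CompactSpace X] [MeasurableSpace X] [BorelSpace X]

/-- The weights. -/
noncomputable def wt (H N : ℕ) (n : ℕ) : ℝ :=
  (1 / (n : ℝ)) / (H * ∑ n ∈ Icc 1 N, (1 / (n : ℝ)))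

lemma wt_nonneg (H N n : ℕ) : 0 ≤ wt H N n := by
  unfold wt
  have : 0 ≤ ∑ n ∈ Icc 1 N, (1 / (n : ℝ)) := sum_nonneg fun _ _ => by positivity
  positivity

lemma L_pos {N : ℕ} (hN : 1 ≤ N) : 0 < ∑ n ∈ Icc 1 N, (1 / (n : ℝ)) := by
  apply sum_pos
  · intro n hn
    rw [mem_Icc] at hn
    have : (0 : ℝ) < n := by exact_mod_cast hn.1
    positivity
  · exact ⟨1, by simp [hN]⟩

lemma wt_sum {H N : ℕ} (hH : 1 ≤ H) (hN : 1 ≤ N) : ∑ n ∈ Icc 1 N, ∑ _h ∈ Icc 1 H, wt H N n = 1 := by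
  have hL := L_pos hN
  have hH0 : (0 : ℝ) < H := by exact_mod_cast hH
  simp only [sum_const, Nat.card_Icc, Nat.add_sub_cancel, nsmul_eq_mul]
  rw [← mul_sum]
  unfold wt
  rw [← sum_div]
  field_simp

/-- The empirical measure. -/
noncomputable def em (T : X → X) (H N : ℕ) (z : ℕ → X) : Measure X :=
  ∑ n ∈ Icc 1 N, ∑ h ∈ Icc 1 H, ENNReal.ofReal (wt H N n) • Measure.dirac (T^[h] (z n))

lemma em_prob (T : X → X) {H N : ℕ} (hH : 1 ≤ H) (hN : 1 ≤ N) (z : ℕ → X) :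
    IsProbabilityMeasure (em T H N z) := by
  constructor
  unfold em
  simp only [Measure.coe_finset_sum, Finset.sum_apply, Measure.smul_apply, smul_eq_mul,
    measure_univ, mul_one]
  have h1 : ∀ n ∈ Icc 1 N, ∑ _h ∈ Icc 1 H, ENNReal.ofReal (wt H N n) =
      ENNReal.ofReal (∑ _h ∈ Icc 1 H, wt H N n) := fun n _ =>
    (ENNReal.ofReal_sum_of_nonneg fun _ _ => wt_nonneg _ _ _).symm
  rw [sum_congr rfl h1, ← ENNReal.ofReal_sum_of_nonneg fun n _ =>
    sum_nonneg fun _ _ => wt_nonneg _ _ _, wt_sum hH hN, ENNReal.ofReal_one]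

lemma em_integral (T : X → X) (H N : ℕ) (z : ℕ → X) (g : X → ℝ) (hg : Continuous g) :
    ∫ x, g x ∂(em T H N z) = ∑ n ∈ Icc 1 N, ∑ h ∈ Icc 1 H, wt H N n * g (T^[h] (z n)) := by
  obtain ⟨C, hC⟩ : ∃ C : ℝ, ∀ x, ‖g x‖ ≤ C := by
    obtain ⟨B, hB⟩ := (isCompact_range (hg.norm)).bddAbove
    exact ⟨B, fun x => hB ⟨x, rfl⟩⟩
  have hint : ∀ (x : X), Integrable g (Measure.dirac x) := fun x =>
    Integrable.of_bound hg.aestronglyMeasurable C (Eventually.of_forall hC)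
  unfold em
  rw [integral_finset_sum_measure fun n _ => integrable_finset_sum_measure.2 fun h _ =>
    (hint _).smul_measure ENNReal.ofReal_ne_top]
  refine sum_congr rfl fun n _ => ?_
  rw [integral_finset_sum_measure fun h _ => (hint _).smul_measure ENNReal.ofReal_ne_top]
  refine sum_congr rfl fun h _ => ?_
  rw [integral_smul_measure, integral_dirac, ENNReal.toReal_ofReal (wt_nonneg _ _ _), smul_eq_mul]

lemma tele (a : ℕ → ℝ) (H : ℕ) : ∑ h ∈ Icc 1 H, (a (h + 1) - a h) = a (H + 1) - a 1 := by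
  induction H with
  | zero => simp
  | succ n ih => rw [Finset.sum_Icc_succ_top (by omega), ih]; ring

lemma em_inv (T : X → X) (hT : Continuous T) {H N : ℕ} (hH : 1 ≤ H) (hN : 1 ≤ N) (z : ℕ → X)
    (g : X → ℝ) (hg : Continuous g) (C : ℝ) (hC : ∀ x, |g x| ≤ C) :
    |∫ x, g (T x) ∂(em T H N z) - ∫ x, g x ∂(em T H N z)| ≤ 2 * C / H := by
  rw [em_integral T H N z (fun x => g (T x)) (hg.comp hT), em_integral T H N z g hg,
    ← sum_sub_distrib]
  have hL := L_pos hN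
  have hH0 : (0 : ℝ) < H := by exact_mod_cast hH
  have h1 : ∀ n ∈ Icc 1 N, ∑ h ∈ Icc 1 H, wt H N n * g (T (T^[h] (z n))) -
      ∑ h ∈ Icc 1 H, wt H N n * g (T^[h] (z n)) =
      wt H N n * (g (T^[H + 1] (z n)) - g (T^[1] (z n))) := by
    intro n _
    rw [← mul_sum, ← mul_sum, ← mul_sub, ← sum_sub_distrib]
    congr 1
    rw [← tele (fun h => g (T^[h] (z n))) H]
    refine sum_congr rfl fun h _ => ?_
    simp only [Function.iterate_succ_apply']
  rw [sum_congr rfl h1]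
  calc |∑ n ∈ Icc 1 N, wt H N n * (g (T^[H + 1] (z n)) - g (T^[1] (z n)))|
      ≤ ∑ n ∈ Icc 1 N, |wt H N n * (g (T^[H + 1] (z n)) - g (T^[1] (z n)))| :=
        abs_sum_le_sum_abs _ _
    _ ≤ ∑ n ∈ Icc 1 N, wt H N n * (2 * C) := by
        refine sum_le_sum fun n _ => ?_
        rw [abs_mul, abs_of_nonneg (wt_nonneg _ _ _)]
        refine mul_le_mul_of_nonneg_left ?_ (wt_nonneg _ _ _)
        calc |g (T^[H + 1] (z n)) - g (T^[1] (z n))| ≤
              |g (T^[H + 1] (z n))| + |g (T^[1] (z n))| := abs_sub _ _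
          _ ≤ 2 * C := by linarith [hC (T^[H + 1] (z n)), hC (T^[1] (z n))]
    _ = 2 * C / H := by
        rw [← sum_mul]
        unfold wt
        rw [← sum_div]
        field_simp

theorem R1 (T : X → X) (hT : Continuous T) (H N : ℕ → ℕ) (z : ℕ → ℕ → X)
    (hH : Tendsto H atTop atTop) (hH1 : ∀ k, 1 ≤ H k) (hN1 : ∀ k, 1 ≤ N k) :
    ∃ ν : Measure X, IsProbabilityMeasure ν ∧ MeasurePreserving T ν ν ∧
      ∀ g : X → ℝ, Continuous g → ∀ η : ℝ, 0 < η → ∃ᶠ k in atTop,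
        ∑ n ∈ Icc 1 (N k), (1 / (n : ℝ)) * ∑ h ∈ Icc 1 (H k), g (T^[h] (z k n)) ≤
          ((∫ x, g x ∂ν) + η) * (H k : ℝ) * ∑ n ∈ Icc 1 (N k), (1 / (n : ℝ)) := by
  classical
  set m : ℕ → ProbabilityMeasure X := fun k => ⟨em T (H k) (N k) (z k), em_prob T (hH1 k) (hN1 k) _⟩
    with hm
  have hU : (Filter.hyperfilter ℕ : Filter ℕ) ≤ atTop := Nat.hyperfilter_le_atTop
  obtain ⟨μ, -, hμ⟩ := isCompact_univ.ultrafilter_le_nhds
    ((Filter.hyperfilter ℕ).map m) (by simp)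
  have hμ' : Tendsto m (Filter.hyperfilter ℕ : Filter ℕ) (𝓝 μ) := hμ
  have hlim : ∀ g : X → ℝ, Continuous g →
      Tendsto (fun k => ∫ x, g x ∂(em T (H k) (N k) (z k))) (Filter.hyperfilter ℕ : Filter ℕ)
        (𝓝 (∫ x, g x ∂(μ : Measure X))) := by
    intro g hg
    exact (ProbabilityMeasure.tendsto_iff_forall_integral_tendsto.1 hμ')
      (BoundedContinuousFunction.mkOfCompact ⟨g, hg⟩)
  have hbd : ∀ g : X → ℝ, Continuous g → ∃ C : ℝ, ∀ x, |g x| ≤ C := by
    intro g hg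
    obtain ⟨B, hB⟩ := (isCompact_range (hg.abs)).bddAbove
    exact ⟨B, fun x => hB ⟨x, rfl⟩⟩
  have hinv : ∀ g : X → ℝ, Continuous g → ∫ x, g (T x) ∂(μ : Measure X) = ∫ x, g x ∂(μ : Measure X) := by
    intro g hg
    obtain ⟨C, hC⟩ := hbd g hg
    have h1 := (hlim (fun x => g (T x)) (hg.comp hT)).sub (hlim g hg)
    have h2 : Tendsto (fun k => ∫ x, g (T x) ∂(em T (H k) (N k) (z k)) -
        ∫ x, g x ∂(em T (H k) (N k) (z k))) (Filter.hyperfilter ℕ : Filter ℕ) (𝓝 0) := by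
      apply squeeze_zero_norm (a := fun k => 2 * C / (H k : ℝ))
      · intro k
        exact em_inv T hT (hH1 k) (hN1 k) (z k) g hg C hC
      · have : Tendsto (fun k => 2 * C / (H k : ℝ)) atTop (𝓝 0) :=
          Tendsto.div_atTop tendsto_const_nhds (tendsto_natCast_atTop_atTop.comp hH)
        exact this.mono_left hU
    exact sub_eq_zero.1 (tendsto_nhds_unique h1 h2)
  refine ⟨μ, μ.2, ⟨hT.measurable, ?_⟩, ?_⟩
  · have hp : IsProbabilityMeasure (Measure.map T (μ : Measure X)) :=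
      Measure.isProbabilityMeasure_map hT.measurable.aemeasurable
    apply ext_of_forall_integral_eq_of_IsFiniteMeasure
    intro g
    rw [integral_map hT.measurable.aemeasurable g.continuous.aestronglyMeasurable]
    exact hinv g g.continuous
  · intro g hg η hη
    have h1 : ∀ᶠ k in (Filter.hyperfilter ℕ : Filter ℕ),
        ∫ x, g x ∂(em T (H k) (N k) (z k)) < ∫ x, g x ∂(μ : Measure X) + η :=
      (hlim g hg).eventually_lt_const (by linarith)
    refine (h1.frequently.filter_mono hU).mono fun k hk => ?_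
    rw [em_integral T _ _ _ g hg] at hk
    have hL := L_pos (hN1 k)
    have hH0 : (0 : ℝ) < H k := by exact_mod_cast hH1 k
    have h2 : ∑ n ∈ Icc 1 (N k), ∑ h ∈ Icc 1 (H k), wt (H k) (N k) n * g (T^[h] (z k n)) =
        (∑ n ∈ Icc 1 (N k), (1 / (n : ℝ)) * ∑ h ∈ Icc 1 (H k), g (T^[h] (z k n))) /
          (H k * ∑ n ∈ Icc 1 (N k), (1 / (n : ℝ))) := by
      rw [sum_div]
      refine sum_congr rfl fun n _ => ?_
      rw [← mul_sum]
      unfold wt
      ring
    rw [h2, div_lt_iff₀ (by positivity)] at hk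
    rw [mul_assoc]
    exact hk.le

end

end Pool.Agent.LS
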