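import Mathlib
import Pool.Agent.Lib.LS.R3

/-!
# Row R2: the window function

helper16.
-/

set_option autoImplicit false
open Finset MeasureTheory

namespace Pool.Agent.LS

open Pool.Agent.Lib.MP_663568_nt

namespace R2

/-- The space of windows with the l1 norm. -/
abbrev E (H₁ : ℕ) : Type := PiLp 1 (fun _ : Fin H₁ => ℂ)

/-- The window of a sequence. -/
noncomputable def win (H₁ : ℕ) (v : ℕ → ℂ) : E H₁ := WithLp.toLp 1 fun i : Fin H₁ => v (i.val + 1)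

lemma sum_Icc_fin (H₁ : ℕ) (F : ℕ → ℝ) :
    ∑ h ∈ Icc 1 H₁, F h = ∑ i : Fin H₁, F (i.val + 1) := by
  rw [Fin.sum_univ_eq_sum_range (fun i => F (i + 1)) H₁, Finset.range_eq_Ico,
    Finset.sum_Ico_add' (fun i => F i) 0 H₁ 1]
  rfl

lemma dist_win (H₁ : ℕ) (u v : ℕ → ℂ) :
    dist (win H₁ u) (win H₁ v) = ∑ h ∈ Icc 1 H₁, ‖u h - v h‖ := by
  rw [PiLp.dist_eq_of_L1, sum_Icc_fin H₁ fun h => ‖u h - v h‖]
  exact sum_congr rfl fun i _ => by rw [dist_eq_norm]; rfl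

/-- The set of the admissible windows. -/
def Adm {J : ℕ} (H₁ : ℕ) (M : ℝ) (W : Fin J → Set (ℕ → ℂ)) : Set (E H₁) :=
  {x | ∃ (c : Fin J → ℂ) (w : Fin J → ℕ → ℂ), (∀ j, ‖c j‖ ≤ M) ∧ (∀ j, w j ∈ W j) ∧
    x = win H₁ fun h => ∑ j, c j * w j h}

lemma key {J : ℕ} (H₁ : ℕ) (M : ℝ) (hM : 0 ≤ M) (W : Fin J → Set (ℕ → ℂ))
    (hW : ∀ j, ∀ w ∈ W j, ∀ h, ‖w h‖ ≤ 1) (u : ℕ → ℂ) (n : ℕ) (x : E H₁)
    (hx : x ∈ Adm H₁ M W) :
    ‖∑ h ∈ Icc 1 H₁, muC (n + h) * u h‖ - M * ∑ j, sp (W j) H₁ n ≤ dist (win H₁ u) x := by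
  obtain ⟨c, w, hc, hw, rfl⟩ := hx
  rw [dist_win]
  have e : ∑ h ∈ Icc 1 H₁, muC (n + h) * u h =
      ∑ h ∈ Icc 1 H₁, muC (n + h) * (u h - ∑ j, c j * w j h) +
        ∑ j, c j * ∑ h ∈ Icc 1 H₁, muC (n + h) * w j h := by
    have e1 : ∑ j, c j * ∑ h ∈ Icc 1 H₁, muC (n + h) * w j h =
        ∑ h ∈ Icc 1 H₁, muC (n + h) * ∑ j, c j * w j h := by
      simp_rw [mul_sum]
      rw [sum_comm]
      exact sum_congr rfl fun h _ => sum_congr rfl fun j _ => by ring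
    rw [e1, ← sum_add_distrib]
    exact sum_congr rfl fun h _ => by ring
  have h1 : ‖∑ h ∈ Icc 1 H₁, muC (n + h) * (u h - ∑ j, c j * w j h)‖ ≤
      ∑ h ∈ Icc 1 H₁, ‖u h - ∑ j, c j * w j h‖ := by
    refine (norm_sum_le _ _).trans (sum_le_sum fun h _ => ?_)
    rw [norm_mul]
    exact mul_le_of_le_one_left (norm_nonneg _) (norm_muC _)
  have h2 : ‖∑ j, c j * ∑ h ∈ Icc 1 H₁, muC (n + h) * w j h‖ ≤ M * ∑ j, sp (W j) H₁ n := by
    rw [mul_sum]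
    refine (norm_sum_le _ _).trans (sum_le_sum fun j _ => ?_)
    rw [norm_mul]
    exact mul_le_mul (hc j) (le_sp (hW j) H₁ n (hw j)) (norm_nonneg _) hM
  have h3 : ‖∑ h ∈ Icc 1 H₁, muC (n + h) * u h‖ ≤
      ‖∑ h ∈ Icc 1 H₁, muC (n + h) * (u h - ∑ j, c j * w j h)‖ +
        ‖∑ j, c j * ∑ h ∈ Icc 1 H₁, muC (n + h) * w j h‖ := by
    rw [e]
    exact norm_add_le _ _
  linarith

end R2

open R2

theorem R2 {X : Type*} [MetricSpace X] [CompactSpace X] [MeasurableSpace X] [BorelSpace X]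
    (T : X → X) (hT : Continuous T) (f : X → ℂ) (hf : Continuous f) (ν : Measure X)
    [IsProbabilityMeasure ν] (hν : MeasurePreserving T ν ν) (ε : ℝ) (J : ℕ) (M : ℝ) (hM : 0 ≤ M)
    (W : Fin J → Set (ℕ → ℂ)) (φ : Fin J → X → ℂ) (hW : ∀ j, ∀ w ∈ W j, ∀ h, ‖w h‖ ≤ 1)
    (hφ : ∀ j, Measurable (φ j)) (hb : ∀ j z, ‖φ j z‖ ≤ M)
    (hae : ∀ j, ∀ᵐ z ∂ν, ∃ w ∈ W j, ∃ c : ℂ, ‖c‖ ≤ M ∧ ∀ h : ℕ, φ j (T^[h] z) = c * w h)
    (hint : ∫ z, ‖f z - ∑ j, φ j z‖ ∂ν ≤ ε) (H₁ : ℕ) (_h1 : 1 ≤ H₁) :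
    ∃ g : X → ℝ, Continuous g ∧ ∫ z, g z ∂ν ≤ H₁ * ε ∧
      ∀ (n : ℕ) (z : X), ‖∑ h ∈ Icc 1 H₁, muC (n + h) * f (T^[h] z)‖ ≤
        g z + M * ∑ j, sp (W j) H₁ n := by
  classical
  have hall : ∀ᵐ z ∂ν, ∀ j, ∃ w ∈ W j, ∃ c : ℂ, ‖c‖ ≤ M ∧
      ∀ h : ℕ, φ j (T^[h] z) = c * w h := by
    rw [ae_all_iff]
    exact hae
  have hadm : ∀ z, (∀ j, ∃ w ∈ W j, ∃ c : ℂ, ‖c‖ ≤ M ∧ ∀ h : ℕ, φ j (T^[h] z) = c * w h) →
      win H₁ (fun h => ∑ j, φ j (T^[h] z)) ∈ Adm H₁ M W := by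
    intro z hz
    choose w hw1 c hc hw2 using hz
    refine ⟨c, w, hc, hw1, ?_⟩
    congr 1
    funext h
    exact sum_congr rfl fun j _ => hw2 j h
  have hne : (Adm H₁ M W).Nonempty := by
    obtain ⟨z, hz⟩ := hall.exists
    exact ⟨_, hadm z hz⟩
  have hcw : Continuous fun z => win H₁ fun h => f (T^[h] z) := by
    unfold win
    refine (PiLp.continuous_toLp 1 (fun _ : Fin H₁ => ℂ)).comp ?_
    exact continuous_pi fun i => hf.comp (hT.iterate _)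
  have hcg : Continuous fun z => Metric.infDist (win H₁ fun h => f (T^[h] z)) (Adm H₁ M W) :=
    (Metric.continuous_infDist_pt _).comp hcw
  refine ⟨fun z => Metric.infDist (win H₁ fun h => f (T^[h] z)) (Adm H₁ M W), hcg, ?_, ?_⟩
  · -- the integral
    obtain ⟨Cf, hCf⟩ : ∃ C : ℝ, ∀ z, ‖f z‖ ≤ C := by
      obtain ⟨C, hC⟩ := isCompact_univ.exists_bound_of_continuousOn (f := f) hf.continuousOn
      exact ⟨C, fun z => hC z (Set.mem_univ z)⟩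
    have hmF : Measurable fun z => ‖f z - ∑ j, φ j z‖ :=
      (hf.measurable.sub (Finset.measurable_fun_sum _ fun j _ => hφ j)).norm
    have hbF : ∀ z, ‖f z - ∑ j, φ j z‖ ≤ Cf + J * M := by
      intro z
      refine (norm_sub_le _ _).trans (add_le_add (hCf z) ?_)
      refine (norm_sum_le _ _).trans ?_
      refine (sum_le_sum fun j _ => hb j z).trans (le_of_eq ?_)
      rw [sum_const, card_univ, Fintype.card_fin, nsmul_eq_mul]
    have hmT : ∀ h : ℕ, Measurable fun z => ‖f (T^[h] z) - ∑ j, φ j (T^[h] z)‖ := fun h =>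
      hmF.comp (hT.iterate h).measurable
    have hiT : ∀ h : ℕ, Integrable (fun z => ‖f (T^[h] z) - ∑ j, φ j (T^[h] z)‖) ν := fun h =>
      Integrable.of_bound (hmT h).aestronglyMeasurable (Cf + J * M)
        (Filter.Eventually.of_forall fun z => by rw [norm_norm]; exact hbF _)
    have hiter : ∀ h : ℕ, ∫ z, ‖f (T^[h] z) - ∑ j, φ j (T^[h] z)‖ ∂ν ≤ ε := by
      intro h
      have hp := hν.iterate h
      have e := integral_map (μ := ν) (φ := T^[h]) hp.measurable.aemeasurable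
        (f := fun z => ‖f z - ∑ j, φ j z‖) hmF.aestronglyMeasurable
      rw [hp.map_eq] at e
      rw [← e]
      exact hint
    calc ∫ z, Metric.infDist (win H₁ fun h => f (T^[h] z)) (Adm H₁ M W) ∂ν ≤
        ∫ z, ∑ h ∈ Icc 1 H₁, ‖f (T^[h] z) - ∑ j, φ j (T^[h] z)‖ ∂ν := by
          refine integral_mono_ae ?_ (integrable_finsetSum _ fun h _ => hiT h) ?_
          · exact hcg.integrable_of_hasCompactSupport (HasCompactSupport.of_compactSpace _)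
          · filter_upwards [hall] with z hz
            refine (Metric.infDist_le_dist_of_mem (hadm z hz)).trans (le_of_eq ?_)
            rw [dist_win]
      _ = ∑ h ∈ Icc 1 H₁, ∫ z, ‖f (T^[h] z) - ∑ j, φ j (T^[h] z)‖ ∂ν :=
          integral_finsetSum _ fun h _ => hiT h
      _ ≤ ∑ h ∈ Icc 1 H₁, ε := sum_le_sum fun h _ => hiter h
      _ = H₁ * ε := by simp
  · intro n z
    rw [← sub_le_iff_le_add]
    exact (Metric.le_infDist hne).2 fun x hx => key H₁ M hM W hW _ n x hx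

end Pool.Agent.LS
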