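import Mathlib
import Pool.Agent.Lib.LS.R3

/-!
# Logarithmic Möbius disjointness from local uniformity: from windows to points
-/

set_option autoImplicit false
open Finset

namespace Pool.Agent.LS

open Pool.Agent.Lib.MP_663568_nt

lemma step1 (b : ℕ → ℂ) (A : ℝ) (hb : ∀ n, ‖b n‖ ≤ A) (N : ℕ) :
    ‖∑ n ∈ Icc 1 (N + 1), (1 / (n : ℂ)) * (b n - b (n + 1)) + (1 / ((N + 1 : ℕ) : ℂ)) * b (N + 2)‖ ≤
      A * (2 - 1 / ((N + 1 : ℕ) : ℝ)) := by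
  induction N with
  | zero =>
    have := hb 1
    simp only [Nat.zero_add, Icc_self, sum_singleton, Nat.cast_one]
    have e : (1 / (1 : ℂ)) * (b 1 - b (1 + 1)) + 1 / 1 * b 2 = b 1 := by ring_nf
    rw [e]
    linarith
  | succ N ih =>
    rw [Finset.sum_Icc_succ_top (by omega)]
    have hN : (0 : ℝ) < ((N + 1 : ℕ) : ℝ) := by positivity
    have hN1 : ((N + 1 : ℕ) : ℂ) ≠ 0 := by exact_mod_cast (Nat.succ_ne_zero N)
    have e : ∑ k ∈ Icc 1 (N + 1), (1 / (k : ℂ)) * (b k - b (k + 1)) +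
        (1 / ((N + 1 + 1 : ℕ) : ℂ)) * (b (N + 1 + 1) - b (N + 1 + 1 + 1)) +
        (1 / ((N + 1 + 1 : ℕ) : ℂ)) * b (N + 1 + 2) =
        (∑ k ∈ Icc 1 (N + 1), (1 / (k : ℂ)) * (b k - b (k + 1)) +
          (1 / ((N + 1 : ℕ) : ℂ)) * b (N + 2)) -
        ((1 / ((N + 1 : ℕ) : ℝ) - 1 / ((N + 1 + 1 : ℕ) : ℝ) : ℝ) : ℂ) * b (N + 2) := by
      push_cast
      ring
    rw [e]
    refine (norm_sub_le _ _).trans ?_
    have h1 : 0 ≤ 1 / ((N + 1 : ℕ) : ℝ) - 1 / ((N + 1 + 1 : ℕ) : ℝ) := by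
      rw [sub_nonneg]
      apply one_div_le_one_div_of_le hN
      push_cast; linarith
    have h2 : ‖((1 / ((N + 1 : ℕ) : ℝ) - 1 / ((N + 1 + 1 : ℕ) : ℝ) : ℝ) : ℂ) * b (N + 2)‖ ≤
        (1 / ((N + 1 : ℕ) : ℝ) - 1 / ((N + 1 + 1 : ℕ) : ℝ)) * A := by
      rw [norm_mul, Complex.norm_real, Real.norm_eq_abs, abs_of_nonneg h1]
      exact mul_le_mul_of_nonneg_left (hb _) h1
    linarith

lemma step2 (b : ℕ → ℂ) (A : ℝ) (hb : ∀ n, ‖b n‖ ≤ A) (N : ℕ) :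
    ‖∑ n ∈ Icc 1 N, (1 / (n : ℂ)) * (b n - b (n + 1))‖ ≤ 2 * A := by
  have hA : 0 ≤ A := (norm_nonneg _).trans (hb 0)
  rcases Nat.eq_zero_or_pos N with rfl | hN
  · simp only [show Icc 1 0 = (∅ : Finset ℕ) from rfl, sum_empty, norm_zero]
    positivity
  · obtain ⟨M, rfl⟩ : ∃ M, N = M + 1 := ⟨N - 1, by omega⟩
    have h1 := step1 b A hb M
    have hM : (0 : ℝ) < ((M + 1 : ℕ) : ℝ) := by positivity
    have h2 : ‖(1 / ((M + 1 : ℕ) : ℂ)) * b (M + 2)‖ ≤ 1 / ((M + 1 : ℕ) : ℝ) * A := by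
      rw [norm_mul, norm_div, norm_one, Complex.norm_natCast]
      exact mul_le_mul_of_nonneg_left (hb _) (by positivity)
    have h3 : ‖∑ n ∈ Icc 1 (M + 1), (1 / (n : ℂ)) * (b n - b (n + 1))‖ ≤
        ‖∑ n ∈ Icc 1 (M + 1), (1 / (n : ℂ)) * (b n - b (n + 1)) +
          (1 / ((M + 1 : ℕ) : ℂ)) * b (M + 2)‖ + ‖(1 / ((M + 1 : ℕ) : ℂ)) * b (M + 2)‖ := by
      have := norm_sub_le (∑ n ∈ Icc 1 (M + 1), (1 / (n : ℂ)) * (b n - b (n + 1)) +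
          (1 / ((M + 1 : ℕ) : ℂ)) * b (M + 2)) ((1 / ((M + 1 : ℕ) : ℂ)) * b (M + 2))
      rwa [add_sub_cancel_right] at this
    calc _ ≤ _ := h3
      _ ≤ A * (2 - 1 / ((M + 1 : ℕ) : ℝ)) + 1 / ((M + 1 : ℕ) : ℝ) * A := add_le_add h1 h2
      _ = 2 * A := by ring

lemma step3 (a : ℕ → ℂ) (A : ℝ) (ha : ∀ n, ‖a n‖ ≤ A) (N h : ℕ) :
    ‖∑ n ∈ Icc 1 N, (1 / (n : ℂ)) * a n - ∑ n ∈ Icc 1 N, (1 / (n : ℂ)) * a (n + h)‖ ≤
      2 * A * h := by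
  induction h with
  | zero => simp
  | succ h ih =>
    have h1 := step2 (fun n => a (n + h)) A (fun n => ha _) N
    have e : ∑ n ∈ Icc 1 N, (1 / (n : ℂ)) * a n - ∑ n ∈ Icc 1 N, (1 / (n : ℂ)) * a (n + (h + 1)) =
        (∑ n ∈ Icc 1 N, (1 / (n : ℂ)) * a n - ∑ n ∈ Icc 1 N, (1 / (n : ℂ)) * a (n + h)) +
        ∑ n ∈ Icc 1 N, (1 / (n : ℂ)) * (a (n + h) - a (n + 1 + h)) := by
      simp only [mul_sub, sum_sub_distrib]
      have : ∀ n, n + 1 + h = n + (h + 1) := fun n => by ring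
      simp only [this]
      ring
    rw [e]
    refine (norm_add_le _ _).trans ?_
    push_cast
    linarith

theorem R5 (F : ℕ → ℂ) (A : ℝ) (hF : ∀ n, ‖F n‖ ≤ A) (H : ℕ) (hH : 1 ≤ H) :
    ∃ C : ℝ, ∀ N : ℕ, ‖∑ n ∈ Icc 1 N, (1 / (n : ℂ)) * (muC n * F n)‖ ≤
      (1 / (H : ℝ)) * ∑ n ∈ Icc 1 N, (1 / (n : ℝ)) *
        ‖∑ h ∈ Icc 1 H, muC (n + h) * F (n + h)‖ + C := by
  have hA : 0 ≤ A := (norm_nonneg _).trans (hF 0)
  have hH0 : (0 : ℝ) < H := by exact_mod_cast hH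
  refine ⟨2 * A * H, fun N => ?_⟩
  obtain ⟨a, ha⟩ : ∃ a : ℕ → ℂ, a = fun n => muC n * F n := ⟨_, rfl⟩
  have haA : ∀ n, ‖a n‖ ≤ A := fun n => by
    rw [ha]; beta_reduce
    rw [norm_mul]
    calc ‖muC n‖ * ‖F n‖ ≤ 1 * A := by
          gcongr
          · exact norm_muC _
          · exact hF _
      _ = A := one_mul _
  have h1 : ∀ h ∈ Icc 1 H, ‖∑ n ∈ Icc 1 N, (1 / (n : ℂ)) * a n -
      ∑ n ∈ Icc 1 N, (1 / (n : ℂ)) * a (n + h)‖ ≤ 2 * A * H := by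
    intro h hh
    rw [mem_Icc] at hh
    refine (step3 a A haA N h).trans ?_
    have : (h : ℝ) ≤ H := by exact_mod_cast hh.2
    gcongr
  have h2 : (H : ℝ) * ‖∑ n ∈ Icc 1 N, (1 / (n : ℂ)) * a n‖ ≤
      ∑ n ∈ Icc 1 N, (1 / (n : ℝ)) * ‖∑ h ∈ Icc 1 H, a (n + h)‖ + H * (2 * A * H) := by
    have e : (H : ℂ) * ∑ n ∈ Icc 1 N, (1 / (n : ℂ)) * a n =
        ∑ n ∈ Icc 1 N, (1 / (n : ℂ)) * ∑ h ∈ Icc 1 H, a (n + h) +
        ∑ h ∈ Icc 1 H, (∑ n ∈ Icc 1 N, (1 / (n : ℂ)) * a n -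
          ∑ n ∈ Icc 1 N, (1 / (n : ℂ)) * a (n + h)) := by
      rw [sum_sub_distrib, sum_const, Nat.card_Icc, Nat.add_sub_cancel, nsmul_eq_mul]
      have : ∑ n ∈ Icc 1 N, (1 / (n : ℂ)) * ∑ h ∈ Icc 1 H, a (n + h) =
          ∑ h ∈ Icc 1 H, ∑ n ∈ Icc 1 N, (1 / (n : ℂ)) * a (n + h) := by
        rw [sum_comm]
        exact sum_congr rfl fun n _ => mul_sum _ _ _
      rw [this]
      ring
    calc (H : ℝ) * ‖∑ n ∈ Icc 1 N, (1 / (n : ℂ)) * a n‖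
        = ‖(H : ℂ) * ∑ n ∈ Icc 1 N, (1 / (n : ℂ)) * a n‖ := by
          rw [norm_mul, Complex.norm_natCast]
      _ ≤ ∑ n ∈ Icc 1 N, (1 / (n : ℝ)) * ‖∑ h ∈ Icc 1 H, a (n + h)‖ +
          ∑ h ∈ Icc 1 H, 2 * A * H := by
          rw [e]
          refine (norm_add_le _ _).trans (add_le_add ?_ ?_)
          · refine (norm_sum_le _ _).trans (le_of_eq (sum_congr rfl fun n _ => ?_))
            rw [norm_mul, norm_div, norm_one, Complex.norm_natCast]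
          · exact (norm_sum_le _ _).trans (sum_le_sum h1)
      _ = _ := by
          rw [sum_const, Nat.card_Icc, Nat.add_sub_cancel, nsmul_eq_mul]
  rw [ha] at h2
  have h3 := mul_le_mul_of_nonneg_left h2 (show (0 : ℝ) ≤ 1 / H by positivity)
  calc ‖∑ n ∈ Icc 1 N, (1 / (n : ℂ)) * (muC n * F n)‖
      = 1 / (H : ℝ) * (H * ‖∑ n ∈ Icc 1 N, (1 / (n : ℂ)) * (muC n * F n)‖) := by field_simp
    _ ≤ _ := h3
    _ = _ := by field_simp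

end Pool.Agent.LS
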