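import Mathlib
import Pool.Agent.Lib.LS.R1
import Pool.Agent.Lib.LS.R2
import Pool.Agent.Lib.LS.R5
import Pool.Agent.Lib.TU.F

/-!
# Logarithmic Möbius disjointness from local uniformity: assembly
-/

set_option autoImplicit false
open Finset MeasureTheory Filter

namespace Pool.Agent.LS

open Pool.Agent.Lib.MP_663568_nt

/-- The numerical core. -/
lemma core {X : Type*} (T : X → X) (f : X → ℂ) (A : ℝ) (hA : 0 < A) (hf : ∀ z, ‖f z‖ ≤ A)
    (J : ℕ) (M : ℝ) (hM : 0 ≤ M) (W : Fin J → Set (ℕ → ℂ)) (hW : ∀ j, ∀ w ∈ W j, ∀ h, ‖w h‖ ≤ 1)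
    (H₁ : ℕ) (g : X → ℝ)
    (hg : ∀ (n : ℕ) (z : X), ‖∑ h ∈ Icc 1 H₁, muC (n + h) * f (T^[h] z)‖ ≤
      g z + M * ∑ j, sp (W j) H₁ n)
    (H N : ℕ) (hHN : H ≤ N) (z : ℕ → X) :
    (H₁ : ℝ) * ∑ n ∈ Icc 1 N, (1 / (n : ℝ)) * ‖∑ h ∈ Icc 1 H, muC (n + h) * f (T^[h] (z n))‖ ≤
      2 * H₁ ^ 2 * A * ∑ n ∈ Icc 1 N, (1 / (n : ℝ)) +
      ∑ n ∈ Icc 1 N, (1 / (n : ℝ)) * ∑ k ∈ Icc 1 H, g (T^[k] (z n)) +
      M * ∑ j, H * (H₁ * (1 + Real.log H) +
        2 * ∑ m ∈ Icc 1 (2 * N), (1 / (m : ℝ)) * sp (W j) H₁ m) := by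
  have h1 : ∀ n ∈ Icc 1 N, (H₁ : ℝ) * ((1 / (n : ℝ)) *
      ‖∑ h ∈ Icc 1 H, muC (n + h) * f (T^[h] (z n))‖) ≤
      2 * H₁ ^ 2 * A * (1 / (n : ℝ)) + (1 / (n : ℝ)) * ∑ k ∈ Icc 1 H, g (T^[k] (z n)) +
      (1 / (n : ℝ)) * ∑ k ∈ Icc 1 H, M * ∑ j, sp (W j) H₁ (n + k) := by
    intro n _
    have h2 := TU.RF.double (fun h => (A : ℂ)⁻¹ * (muC (n + h) * f (T^[h] (z n)))) (fun h => by
      rw [norm_mul, norm_inv, Complex.norm_real, Real.norm_eq_abs, abs_of_pos hA, norm_mul,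
        inv_mul_le_iff₀ hA, mul_one]
      calc ‖muC (n + h)‖ * ‖f (T^[h] (z n))‖ ≤ 1 * A := by
            gcongr
            · exact norm_muC _
            · exact hf _
        _ = A := one_mul _) H H₁
    have h3 : ∀ y, ∑ h ∈ Icc 1 H₁, (A : ℂ)⁻¹ * (muC (n + (y + h)) * f (T^[y + h] (z n))) =
        (A : ℂ)⁻¹ * ∑ h ∈ Icc 1 H₁, muC ((n + y) + h) * f (T^[h] (T^[y] (z n))) := by
      intro y
      rw [mul_sum]
      refine sum_congr rfl fun h _ => ?_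
      rw [← Function.iterate_add_apply, add_comm h y, add_assoc]
    simp only [h3] at h2
    rw [← mul_sum] at h2
    simp only [norm_mul, norm_inv, Complex.norm_real, Real.norm_eq_abs, abs_of_pos hA] at h2
    rw [← mul_sum] at h2
    have h4 : (H₁ : ℝ) * ‖∑ h ∈ Icc 1 H, muC (n + h) * f (T^[h] (z n))‖ ≤
        2 * H₁ ^ 2 * A + ∑ y ∈ Icc 1 H,
          ‖∑ h ∈ Icc 1 H₁, muC ((n + y) + h) * f (T^[h] (T^[y] (z n)))‖ := by
      have h5 := mul_le_mul_of_nonneg_left h2 hA.le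
      rw [mul_sub, mul_inv_cancel_left₀ hA.ne'] at h5
      have h6 : A * ((H₁ : ℝ) * (A⁻¹ * ‖∑ h ∈ Icc 1 H, muC (n + h) * f (T^[h] (z n))‖)) =
          (H₁ : ℝ) * ‖∑ h ∈ Icc 1 H, muC (n + h) * f (T^[h] (z n))‖ := by
        field_simp
      rw [h6] at h5
      linarith
    have h7 : ∑ y ∈ Icc 1 H, ‖∑ h ∈ Icc 1 H₁, muC ((n + y) + h) * f (T^[h] (T^[y] (z n)))‖ ≤
        ∑ y ∈ Icc 1 H, (g (T^[y] (z n)) + M * ∑ j, sp (W j) H₁ (n + y)) :=
      sum_le_sum fun y _ => hg (n + y) (T^[y] (z n))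
    rw [sum_add_distrib] at h7
    have hn : (0 : ℝ) ≤ 1 / (n : ℝ) := by positivity
    have h8 := mul_le_mul_of_nonneg_left (h4.trans (add_le_add le_rfl h7)) hn
    calc (H₁ : ℝ) * ((1 / (n : ℝ)) * ‖∑ h ∈ Icc 1 H, muC (n + h) * f (T^[h] (z n))‖)
        = 1 / (n : ℝ) * ((H₁ : ℝ) * ‖∑ h ∈ Icc 1 H, muC (n + h) * f (T^[h] (z n))‖) := by ring
      _ ≤ _ := h8
      _ = _ := by ring
  rw [mul_sum]
  refine (sum_le_sum h1).trans ?_
  rw [sum_add_distrib, sum_add_distrib, ← mul_sum]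
  have h9 : ∑ n ∈ Icc 1 N, (1 / (n : ℝ)) * ∑ k ∈ Icc 1 H, M * ∑ j, sp (W j) H₁ (n + k) =
      M * ∑ j, ∑ n ∈ Icc 1 N, (1 / (n : ℝ)) * ∑ k ∈ Icc 1 H, sp (W j) H₁ (n + k) := by
    rw [sum_comm, mul_sum]
    refine sum_congr rfl fun n _ => ?_
    rw [← mul_sum, ← mul_sum, sum_comm]
    ring
  rw [h9]
  gcongr with j _
  exact R3 (fun m => sp (W j) H₁ m) H₁ (fun m => sp_nonneg _ _ _)
    (fun m => sp_le (hW j) H₁ m) H N hHN

lemma exists_LU {J : ℕ} {W : Fin J → Set (ℕ → ℂ)} (hW : ∀ j, LU (W j)) (ε : ℝ) (hε : 0 < ε) :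
    ∃ H₀ : ℕ, ∀ H N : ℕ, H₀ ≤ H → H ≤ N → ∀ j,
      ∑ m ∈ Icc 1 N, (1 / (m : ℝ)) * sp (W j) H m ≤ ε * H * Real.log N := by
  choose H₀ hH₀ using fun j => (hW j).2 ε hε
  refine ⟨∑ j, H₀ j, fun H N hH hHN j => ?_⟩
  have h1 : H₀ j ≤ ∑ j, H₀ j := single_le_sum (fun _ _ => Nat.zero_le _) (mem_univ j)
  exact hH₀ j H N (h1.trans hH) hHN

/-- **Uniform logarithmic Möbius disjointness.** -/
theorem R4 {X : Type*} [MetricSpace X] [CompactSpace X] [MeasurableSpace X] [BorelSpace X]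
    (T : X → X) (hT : Continuous T) (f : X → ℂ) (hf : Continuous f)
    (happ : ∀ ν : Measure X, IsProbabilityMeasure ν → MeasurePreserving T ν ν →
      ∀ ε : ℝ, 0 < ε → Appr T f ν ε) (ε : ℝ) (hε : 0 < ε) :
    ∃ C H₀ : ℕ, ∀ H N : ℕ, H₀ ≤ H → H ^ C ≤ N →
      ∑ n ∈ Icc 1 N, (1 / (n : ℝ)) * ⨆ z : X, ‖∑ h ∈ Icc 1 H, muC (n + h) * f (T^[h] z)‖ ≤
        ε * H * Real.log N := by
  classical
  rcases isEmpty_or_nonempty X with hE | hE
  · refine ⟨0, 0, fun H N _ _ => ?_⟩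
    have : ∀ n ∈ Icc 1 N, (1 / (n : ℝ)) *
        ⨆ z : X, ‖∑ h ∈ Icc 1 H, muC (n + h) * f (T^[h] z)‖ = 0 := by
      intro n _
      rw [Real.iSup_of_isEmpty, mul_zero]
    rw [sum_congr rfl this, sum_const_zero]
    have := Real.log_natCast_nonneg N
    positivity
  obtain ⟨A, hA1, hA⟩ : ∃ A : ℝ, 1 ≤ A ∧ ∀ z, ‖f z‖ ≤ A := by
    obtain ⟨B, hB⟩ := (isCompact_range (hf.norm)).bddAbove
    exact ⟨max B 1, le_max_right _ _, fun z => (hB ⟨z, rfl⟩).trans (le_max_left _ _)⟩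
  have hA0 : 0 < A := by linarith
  by_contra hcon
  push Not at hcon
  choose H N hH hHN hbad using fun k : ℕ => hcon (k + 1) (k + 2)
  have hH2 : ∀ k, 2 ≤ H k := fun k => by have := hH k; omega
  have hHN1 : ∀ k, H k ≤ N k := fun k => by
    calc H k = H k ^ 1 := (pow_one _).symm
      _ ≤ H k ^ (k + 1) := Nat.pow_le_pow_right (by have := hH2 k; omega) (by omega)
      _ ≤ N k := hHN k
  -- nearly maximal points
  have hbd : ∀ k n, BddAbove (Set.range fun z : X =>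
      ‖∑ h ∈ Icc 1 (H k), muC (n + h) * f (T^[h] z)‖) := by
    intro k n
    refine ⟨(H k : ℝ) * A, ?_⟩
    rintro _ ⟨z, rfl⟩
    refine (norm_sum_le _ _).trans ?_
    calc ∑ h ∈ Icc 1 (H k), ‖muC (n + h) * f (T^[h] z)‖ ≤ ∑ h ∈ Icc 1 (H k), A := by
          refine sum_le_sum fun h _ => ?_
          rw [norm_mul]
          calc ‖muC (n + h)‖ * ‖f (T^[h] z)‖ ≤ 1 * A := by
                gcongr
                · exact norm_muC _
                · exact hA _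
            _ = A := one_mul _
      _ = H k * A := by simp
  have hz : ∀ k n, ∃ z : X, (⨆ z : X, ‖∑ h ∈ Icc 1 (H k), muC (n + h) * f (T^[h] z)‖) -
      ε / 8 * H k ≤ ‖∑ h ∈ Icc 1 (H k), muC (n + h) * f (T^[h] z)‖ := by
    intro k n
    have hpos : 0 < ε / 8 * H k := by
      have : (0 : ℝ) < H k := by
        have := hH2 k
        exact_mod_cast (by omega : 0 < H k)
      positivity
    obtain ⟨z, hz⟩ := exists_lt_of_lt_ciSup (show
      (⨆ z : X, ‖∑ h ∈ Icc 1 (H k), muC (n + h) * f (T^[h] z)‖) - ε / 8 * H k <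
        ⨆ z : X, ‖∑ h ∈ Icc 1 (H k), muC (n + h) * f (T^[h] z)‖ by linarith)
    exact ⟨z, hz.le⟩
  choose z hz using hz
  obtain ⟨ν, hν, hνT, hlim⟩ := R1 T hT H N z
    (tendsto_atTop_mono hH (tendsto_add_atTop_nat 2))
    (fun k => by have := hH2 k; omega) (fun k => by have := hH2 k; have := hHN1 k; omega)
  obtain ⟨J, M, W, φ, hM, hW, hφ, hb, hae, hint⟩ := happ ν hν hνT (ε / 64) (by positivity)
  obtain ⟨H₀, hH₀⟩ := exists_LU hW (ε / (64 * (M * J + 1))) (by positivity)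
  obtain ⟨H₁, hH₁⟩ : ∃ H₁ : ℕ, H₁ = H₀ + 1 := ⟨_, rfl⟩
  have h11 : 1 ≤ H₁ := by omega
  have h11r : (1 : ℝ) ≤ H₁ := by exact_mod_cast h11
  obtain ⟨g, hgc, hgi, hg⟩ := R2 T hT f hf ν hνT (ε / 64) J M hM W φ (fun j => (hW j).1) hφ hb hae
    hint H₁ h11
  have hfr := hlim g hgc (H₁ * (ε / 64)) (by positivity)
  obtain ⟨K, hK⟩ : ∃ K : ℕ, K = H₁ + ⌈32 * (H₁ : ℝ) * A / ε⌉₊ + ⌈48 * (M * J) / ε⌉₊ + 2 := ⟨_, rfl⟩
  obtain ⟨k, hk, hkK⟩ := (hfr.and_eventually (eventually_ge_atTop K)).exists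
  -- the sizes
  have hHk2 : (2 : ℝ) ≤ H k := by exact_mod_cast hH2 k
  have hHk0 : (0 : ℝ) < H k := by linarith
  have hlog2 : (1 / 2 : ℝ) ≤ Real.log 2 := by linarith [Real.log_two_gt_d9]
  have hlogH : Real.log 2 ≤ Real.log (H k) := Real.log_le_log (by norm_num) hHk2
  have hNk : ((H k : ℕ) : ℝ) ^ (k + 1) ≤ N k := by exact_mod_cast hHN k
  have hlogN : (k + 1) * Real.log (H k) ≤ Real.log (N k) := by
    have := Real.log_le_log (by positivity) hNk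
    rw [Real.log_pow] at this
    push_cast at this
    exact this
  have hkr : (K : ℝ) ≤ k := by exact_mod_cast hkK
  have hK2 : (2 : ℝ) ≤ K := by
    have : 2 ≤ K := by omega
    exact_mod_cast this
  have hlogN1 : 1 ≤ Real.log (N k) := by nlinarith
  have hN0 : (0 : ℝ) < N k := lt_of_lt_of_le (by positivity) hNk
  have hL : ∑ n ∈ Icc 1 (N k), (1 / (n : ℝ)) ≤ 2 * Real.log (N k) := by
    have := Katai.sum_inv_le_log (N k)
    linarith
  have hL0 : 0 ≤ ∑ n ∈ Icc 1 (N k), (1 / (n : ℝ)) := sum_nonneg fun _ _ => by positivity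
  have hlog2N : Real.log ((2 * N k : ℕ) : ℝ) ≤ 2 * Real.log (N k) := by
    push_cast
    rw [Real.log_mul (by norm_num) hN0.ne']
    have : Real.log 2 ≤ 1 := by linarith [Real.log_two_lt_d9]
    linarith
  -- the upper bound
  have hcore := core T f A hA0 hA J M hM W (fun j => (hW j).1) H₁ g hg (H k) (N k) (hHN1 k) (z k)
  have hLU : ∀ j, ∑ m ∈ Icc 1 (2 * N k), (1 / (m : ℝ)) * sp (W j) H₁ m ≤
      ε / (64 * (M * J + 1)) * H₁ * (2 * Real.log (N k)) := by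
    intro j
    have h3 : H₁ ≤ 2 * N k := by
      have := hHN1 k
      have := hH k
      omega
    refine (hH₀ H₁ (2 * N k) (by omega) h3 j).trans ?_
    gcongr
  obtain ⟨S, hS⟩ : ∃ S : ℝ, S = ∑ n ∈ Icc 1 (N k), (1 / (n : ℝ)) *
    ‖∑ h ∈ Icc 1 (H k), muC (n + h) * f (T^[h] (z k n))‖ := ⟨_, rfl⟩
  obtain ⟨lN, hlN⟩ : ∃ lN : ℝ, lN = Real.log (N k) := ⟨_, rfl⟩
  obtain ⟨Hr, hHr⟩ : ∃ Hr : ℝ, Hr = (H k : ℝ) := ⟨_, rfl⟩
  rw [← hS] at hcore
  rw [← hlN] at hLU hlog2N hL hlogN1 hlogN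
  -- the lower bound
  have hlow : 3 / 4 * ε * Hr * lN ≤ S := by
    have h1 : ∑ n ∈ Icc 1 (N k), (1 / (n : ℝ)) *
        (⨆ z : X, ‖∑ h ∈ Icc 1 (H k), muC (n + h) * f (T^[h] z)‖) ≤
        S + ε / 8 * (H k) * ∑ n ∈ Icc 1 (N k), (1 / (n : ℝ)) := by
      rw [hS, mul_sum, ← sum_add_distrib]
      refine sum_le_sum fun n _ => ?_
      have h2 := hz k n
      have h3 : (0 : ℝ) ≤ 1 / (n : ℝ) := by positivity
      have h4 := mul_le_mul_of_nonneg_left h2 h3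
      linarith [h4]
    have h2 := hbad k
    rw [← hlN, ← hHr] at h2
    rw [← hHr] at h1
    have h3 : ε / 8 * Hr * ∑ n ∈ Icc 1 (N k), (1 / (n : ℝ)) ≤ ε / 8 * Hr * (2 * lN) := by
      rw [hHr]; gcongr
    have h4 : ε * Hr * lN ≤ S + ε / 8 * Hr * (2 * lN) := by
      refine h2.le.trans (h1.trans ?_)
      linarith
    linarith
  have hG : ∑ n ∈ Icc 1 (N k), (1 / (n : ℝ)) * ∑ h ∈ Icc 1 (H k), g (T^[h] (z k n)) ≤
      H₁ * (ε / 16) * Hr * lN := by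
    refine hk.trans ?_
    calc (∫ x, g x ∂ν + H₁ * (ε / 64)) * (H k : ℝ) * ∑ n ∈ Icc 1 (N k), (1 / (n : ℝ))
        ≤ (H₁ * (ε / 64) + H₁ * (ε / 64)) * (H k : ℝ) * (2 * lN) := by
          gcongr
      _ = _ := by rw [hHr]; ring
  have h1 : 2 * (H₁ : ℝ) ^ 2 * A * ∑ n ∈ Icc 1 (N k), (1 / (n : ℝ)) ≤
      H₁ * (ε / 8) * Hr * lN := by
    have h4 : 32 * (H₁ : ℝ) * A / ε ≤ Hr := by
      have h5 := Nat.le_ceil (32 * (H₁ : ℝ) * A / ε)
      have h6 : ⌈32 * (H₁ : ℝ) * A / ε⌉₊ ≤ H k := by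
        have := hH k
        omega
      rw [hHr]
      exact h5.trans (by exact_mod_cast h6)
    rw [div_le_iff₀ hε] at h4
    have hlN0 : 0 ≤ lN := by linarith
    calc 2 * (H₁ : ℝ) ^ 2 * A * ∑ n ∈ Icc 1 (N k), (1 / (n : ℝ)) ≤
          2 * (H₁ : ℝ) ^ 2 * A * (2 * lN) := by gcongr
      _ = (H₁ : ℝ) * (32 * H₁ * A) * lN / 8 := by ring
      _ ≤ (H₁ : ℝ) * (Hr * ε) * lN / 8 := by gcongr
      _ = _ := by ring
  have hJ : ∀ j : Fin J, (H k : ℝ) * (H₁ * (1 + Real.log (H k)) +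
      2 * ∑ m ∈ Icc 1 (2 * N k), (1 / (m : ℝ)) * sp (W j) H₁ m) ≤
      Hr * (H₁ * (3 * Real.log (H k)) + 2 * (ε / (64 * (M * J + 1)) * H₁ * (2 * lN))) := by
    intro j
    rw [hHr]
    gcongr
    · linarith
    · exact hLU j
  have h3 : M * ∑ j : Fin J, (H k : ℝ) * (H₁ * (1 + Real.log (H k)) +
      2 * ∑ m ∈ Icc 1 (2 * N k), (1 / (m : ℝ)) * sp (W j) H₁ m) ≤
      H₁ * (ε / 8) * Hr * lN := by
    calc M * ∑ j : Fin J, (H k : ℝ) * (H₁ * (1 + Real.log (H k)) +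
          2 * ∑ m ∈ Icc 1 (2 * N k), (1 / (m : ℝ)) * sp (W j) H₁ m)
        ≤ M * ∑ j : Fin J, Hr * (H₁ * (3 * Real.log (H k)) +
            2 * (ε / (64 * (M * J + 1)) * H₁ * (2 * lN))) :=
          mul_le_mul_of_nonneg_left (sum_le_sum fun j _ => hJ j) hM
      _ = H₁ * Hr * (M * J * (3 * Real.log (H k)) +
            M * J * ((4 * ε * lN) / (64 * (M * J + 1)))) := by
          rw [sum_const, card_univ, Fintype.card_fin, nsmul_eq_mul]; ring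
      _ ≤ H₁ * Hr * (ε / 16 * lN + ε / 16 * lN) := by
          have hMJ : 0 ≤ M * J := by positivity
          have hlN0 : 0 ≤ lN := by linarith
          have hHr0 : 0 ≤ Hr := by rw [hHr]; exact hHk0.le
          have h5 : 48 * (M * J) / ε ≤ k + 1 := by
            have h6 := Nat.le_ceil (48 * (M * J) / ε)
            have h7 : (⌈48 * (M * J) / ε⌉₊ : ℝ) ≤ k := by
              exact_mod_cast (by omega : ⌈48 * (M * J) / ε⌉₊ ≤ k)
            linarith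
          rw [div_le_iff₀ hε] at h5
          have h8 : 0 ≤ Real.log (H k) := by linarith
          have h9 : M * J * (3 * Real.log (H k)) ≤ ε / 16 * lN := by
            calc M * J * (3 * Real.log (H k)) = 48 * (M * J) * Real.log (H k) / 16 := by ring
              _ ≤ (k + 1) * ε * Real.log (H k) / 16 := by gcongr
              _ = ε / 16 * ((k + 1) * Real.log (H k)) := by ring
              _ ≤ ε / 16 * lN := by gcongr
          have h10 : M * J * ((4 * ε * lN) / (64 * (M * J + 1))) ≤ ε / 16 * lN := by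
            rw [mul_div_assoc', div_le_iff₀ (by positivity)]
            nlinarith [mul_nonneg hε.le hlN0]
          exact mul_le_mul_of_nonneg_left (add_le_add h9 h10) (by positivity)
      _ = _ := by ring
  have hfin : (H₁ : ℝ) * S ≤ (H₁ : ℝ) * (5 / 16 * ε * Hr * lN) := by
    calc (H₁ : ℝ) * S ≤ _ := hcore
      _ ≤ H₁ * (ε / 8) * Hr * lN + H₁ * (ε / 16) * Hr * lN + H₁ * (ε / 8) * Hr * lN :=
          add_le_add (add_le_add h1 hG) h3
      _ = _ := by ring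
  have hfin2 : S ≤ 5 / 16 * ε * Hr * lN := le_of_mul_le_mul_left hfin (by linarith)
  have hpos : 0 < ε * Hr * lN := by
    rw [hHr]
    have : 0 < lN := by linarith
    positivity
  linarith

end Pool.Agent.LS
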