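import Mathlib
import Pool.Agent.Lib.LS.R4
import Pool.Agent.Lib.LS.R5
import Pool.Agent.Lib.TUK.Bridge

/-!
# Logarithmic Möbius disjointness from local uniformity: the class of systems
-/

set_option autoImplicit false
open Finset MeasureTheory Filter

namespace Pool.Agent.LS

open Pool.Agent.Lib.MP_663568_nt Pool.Agent.Lib.MP_663568_nt.Katai

/-- Logarithmic Möbius disjointness at every point. -/
theorem pointwise {X : Type*} [MetricSpace X] [CompactSpace X] [MeasurableSpace X] [BorelSpace X]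
    (T : X → X) (hT : Continuous T) (f : X → ℂ) (hf : Continuous f)
    (happ : ∀ ν : Measure X, IsProbabilityMeasure ν → MeasurePreserving T ν ν →
      ∀ ε : ℝ, 0 < ε → Appr T f ν ε) (x : X) :
    Tendsto (fun N : ℕ => (1 / (Real.log N : ℂ)) *
      ∑ n ∈ Icc 1 N, (1 / (n : ℂ)) * (muC n * f (T^[n] x))) atTop (nhds 0) := by
  obtain ⟨A, hA0, hA⟩ : ∃ A : ℝ, 0 ≤ A ∧ ∀ z, ‖f z‖ ≤ A := by
    obtain ⟨B, hB⟩ := (isCompact_range (hf.norm)).bddAbove
    exact ⟨max B 0, le_max_right _ _, fun z => (hB ⟨z, rfl⟩).trans (le_max_left _ _)⟩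
  rw [Metric.tendsto_atTop]
  intro η hη
  obtain ⟨C, H₀, hR4⟩ := R4 T hT f hf happ (η / 3) (by positivity)
  obtain ⟨H, hH⟩ : ∃ H : ℕ, H = H₀ + 1 := ⟨_, rfl⟩
  have hH1 : 1 ≤ H := by omega
  have hH0 : (0 : ℝ) < H := by exact_mod_cast hH1
  obtain ⟨C', hR5⟩ := R5 (fun n => f (T^[n] x)) A (fun n => hA _) H hH1
  have hlog : Tendsto (fun N : ℕ => Real.log (N : ℝ)) atTop atTop :=
    Real.tendsto_log_atTop.comp tendsto_natCast_atTop_atTop
  obtain ⟨N₀, hN₀⟩ := eventually_atTop.1 (hlog.eventually_ge_atTop (max 1 (3 * |C'| / η)))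
  refine ⟨max N₀ (H ^ C), fun N hN => ?_⟩
  have h1 : max 1 (3 * |C'| / η) ≤ Real.log N := hN₀ N ((le_max_left _ _).trans hN)
  have hl1 : 1 ≤ Real.log N := (le_max_left _ _).trans h1
  have hl0 : 0 < Real.log N := by linarith
  have hC' : |C'| ≤ η / 3 * Real.log N := by
    have h2 : 3 * |C'| / η ≤ Real.log N := (le_max_right _ _).trans h1
    rw [div_le_iff₀ hη] at h2
    linarith
  have h3 := hR4 H N (by omega) ((le_max_right _ _).trans hN)
  have h4 := hR5 N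
  have hsup : ∑ n ∈ Icc 1 N, (1 / (n : ℝ)) *
      ‖∑ h ∈ Icc 1 H, muC (n + h) * f (T^[n + h] x)‖ ≤
      ∑ n ∈ Icc 1 N, (1 / (n : ℝ)) * ⨆ z : X, ‖∑ h ∈ Icc 1 H, muC (n + h) * f (T^[h] z)‖ := by
    refine sum_le_sum fun n _ => mul_le_mul_of_nonneg_left ?_ (by positivity)
    have hb : BddAbove (Set.range fun z : X => ‖∑ h ∈ Icc 1 H, muC (n + h) * f (T^[h] z)‖) := by
      refine ⟨(H : ℝ) * A, ?_⟩
      rintro _ ⟨z, rfl⟩
      refine (norm_sum_le _ _).trans ?_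
      calc ∑ h ∈ Icc 1 H, ‖muC (n + h) * f (T^[h] z)‖ ≤ ∑ h ∈ Icc 1 H, A := by
            refine sum_le_sum fun h _ => ?_
            rw [norm_mul]
            calc ‖muC (n + h)‖ * ‖f (T^[h] z)‖ ≤ 1 * A := by
                  gcongr
                  · exact norm_muC _
                  · exact hA _
              _ = A := one_mul _
        _ = H * A := by simp
    have e : ∑ h ∈ Icc 1 H, muC (n + h) * f (T^[n + h] x) =
        ∑ h ∈ Icc 1 H, muC (n + h) * f (T^[h] (T^[n] x)) :=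
      sum_congr rfl fun h _ => by rw [add_comm n h, Function.iterate_add_apply]
    rw [e]
    exact le_ciSup hb (T^[n] x)
  have h5 : ‖∑ n ∈ Icc 1 N, (1 / (n : ℂ)) * (muC n * f (T^[n] x))‖ ≤
      η / 3 * Real.log N + η / 3 * Real.log N := by
    refine h4.trans (add_le_add ?_ ((le_abs_self C').trans hC'))
    calc (1 / (H : ℝ)) * ∑ n ∈ Icc 1 N, (1 / (n : ℝ)) *
          ‖∑ h ∈ Icc 1 H, muC (n + h) * f (T^[n + h] x)‖
        ≤ (1 / (H : ℝ)) * (η / 3 * H * Real.log N) :=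
          mul_le_mul_of_nonneg_left (hsup.trans h3) (by positivity)
      _ = η / 3 * Real.log N := by field_simp
  rw [dist_zero_right, norm_mul, norm_div, norm_one, Complex.norm_real, Real.norm_eq_abs,
    abs_of_pos hl0]
  calc 1 / Real.log N * ‖∑ n ∈ Icc 1 N, (1 / (n : ℂ)) * (muC n * f (T^[n] x))‖
      ≤ 1 / Real.log N * (η / 3 * Real.log N + η / 3 * Real.log N) :=
        mul_le_mul_of_nonneg_left h5 (by positivity)
    _ = 2 * η / 3 := by field_simp; ring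
    _ < η := by linarith

/-- The sequences `f(g^h x Γ) e(α₁ h + … + α_t h^t)`. -/
def WN {G : Type} [Group G] (Γ : Subgroup G) (f : G ⧸ Γ → ℂ) {t : ℕ} (B : Set (Fin t → ℝ)) :
    Set (ℕ → ℂ) :=
  {w | ∃ g x : G, ∃ α ∈ B, ∀ h : ℕ, w h = f (QuotientGroup.mk (g ^ h * x)) * ee (TU.ph α (h : ℝ))}

theorem LU_WN {G : Type} [Group G] [TopologicalSpace G] [IsTopologicalGroup G]
    (k t : ℕ) (hkt : k < t)
    (A : ℕ → Subgroup G) (hanti : Antitone A) (hcomm : ∀ i j, ⁅A i, A j⁆ ≤ A (i + j))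
    (hA1 : A 1 = ⊤) (hAk : A (k + 1) = ⊥)
    (Γ : Subgroup G) (hΓ : IsClosed (Γ : Set G))
    (hcpt : ∀ i, ∃ C : Set G, IsCompact C ∧ (∀ c ∈ C, c ∈ A i) ∧
      ∀ x ∈ A i, ∃ c ∈ C, ∃ γ ∈ Γ, x = c * γ)
    (f : G ⧸ Γ → ℂ) (hf : Continuous f) (hf1 : ∀ x, ‖f x‖ ≤ 1)
    (B : Set (Fin t → ℝ)) (hB : IsClosed B)
    (hinv : ∀ α ∈ B, ∀ β : Fin t → ℝ,
      (∀ i : Fin t, k ≤ i.val → ∃ z : ℤ, β i = α i + (z : ℝ)) → β ∈ B)
    (hnull : TU.NullSec B) : LU (WN Γ f B) := by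
  refine ⟨?_, fun ε hε => ?_⟩
  · rintro w ⟨g, x, α, _, hw⟩ h
    rw [hw, norm_mul, norm_ee, mul_one]
    exact hf1 _
  · obtain ⟨ρ, hρ, H₀, hH₀⟩ := TUK.partI k t hkt A hanti hcomm hA1 hAk Γ hΓ hcpt f hf B hB hinv
      hnull ε hε
    refine ⟨H₀, fun H N hH hHN => le_trans (sum_le_sum fun n _ => ?_) (hH₀ H N hH hHN)⟩
    apply mul_le_mul_of_nonneg_left _ (by positivity)
    have hbd : BddAbove (Set.range fun i : {i : (G × G) × (Fin t → ℝ) // i.2 ∈ TU.Nb B ρ} =>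
        TUK.wd Γ f H n i.1) := by
      refine ⟨(H : ℝ), ?_⟩
      rintro _ ⟨i, rfl⟩
      exact TUK.term_le_card (u := fun h => f (QuotientGroup.mk (i.1.1.1 ^ h * i.1.1.2)))
        (fun m => hf1 _) H n fun h => TU.ph i.1.2 (h : ℝ)
    refine Real.iSup_le ?_ (Real.iSup_nonneg fun _ => norm_nonneg _)
    rintro ⟨w, g, x, α, hα, hw⟩
    have e : ∑ h ∈ Icc 1 H, muC (n + h) * w h = ∑ h ∈ Icc 1 H, muC (n + h) *
        (f (QuotientGroup.mk (g ^ h * x)) * ee (TU.ph α (h : ℝ))) :=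
      sum_congr rfl fun h _ => by rw [hw]
    change ‖∑ h ∈ Icc 1 H, muC (n + h) * w h‖ ≤ _
    rw [e]
    exact le_ciSup hbd ⟨((g, x), α), α, hα, fun i => by rw [sub_self, abs_zero]; exact hρ.le⟩

end Pool.Agent.LS
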