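import Mathlib
import Pool.Agent.Lib.LS.R3
import Pool.Agent.Lib.TU.Final

/-!
# Logarithmic Möbius disjointness from local uniformity: polynomial phases
-/

set_option autoImplicit false
open Finset MeasureTheory Filter

namespace Pool.Agent.LS

open Pool.Agent.Lib.MP_663568_nt Pool.Agent.Lib.MP_663568_nt.Katai

/-- The polynomial phases of `B`. -/
def WB {t : ℕ} (B : Set (Fin t → ℝ)) : Set (ℕ → ℂ) :=
  {w | ∃ α ∈ B, ∀ h : ℕ, w h = ee (TU.ph α (h : ℝ))}

theorem LU_WB {t : ℕ} (ht : 1 ≤ t) (B : Set (Fin t → ℝ)) (hB : IsClosed B) (hP : TU.Per B)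
    (hN : TU.NullSec B) : LU (WB B) := by
  refine ⟨?_, fun ε hε => ?_⟩
  · rintro w ⟨α, _, hw⟩ h
    rw [hw, norm_ee]
  · obtain ⟨H₀, hH₀⟩ := TU.theoremU t ht B hB hP hN ε hε
    refine ⟨H₀, fun H N hH hHN => le_trans (sum_le_sum fun n _ => ?_) (hH₀ H N hH hHN)⟩
    apply mul_le_mul_of_nonneg_left _ (by positivity)
    have hbd : BddAbove (Set.range fun α : {α : Fin t → ℝ // α ∈ B} =>
        ‖∑ h ∈ Icc 1 H, muC (n + h) * ee (TU.ph (α : Fin t → ℝ) (h : ℝ))‖) := by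
      refine ⟨(H : ℝ), ?_⟩
      rintro _ ⟨α, rfl⟩
      refine (norm_sum_le _ _).trans ?_
      calc ∑ h ∈ Icc 1 H, ‖muC (n + h) * ee (TU.ph (α : Fin t → ℝ) (h : ℝ))‖
          ≤ ∑ h ∈ Icc 1 H, (1 : ℝ) := by
            refine sum_le_sum fun h _ => ?_
            rw [norm_mul, norm_ee, mul_one]
            exact norm_muC _
        _ = H := by simp
    rcases isEmpty_or_nonempty {w : ℕ → ℂ // w ∈ WB B} with hE | hE
    · rw [Real.iSup_of_isEmpty]
      exact Real.iSup_nonneg fun _ => norm_nonneg _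
    · refine ciSup_le ?_
      rintro ⟨w, α, hα, hw⟩
      have : ∑ h ∈ Icc 1 H, muC (n + h) * w h =
          ∑ h ∈ Icc 1 H, muC (n + h) * ee (TU.ph α (h : ℝ)) :=
        sum_congr rfl fun h _ => by rw [hw]
      change ‖∑ h ∈ Icc 1 H, muC (n + h) * w h‖ ≤ _
      rw [this]
      exact le_ciSup hbd ⟨α, hα⟩

end Pool.Agent.LS
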